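import Mathlib

/-!
# Legs of any length

The graph of the reduction from satisfiability to short induced nonseparating cycles
(`Pool.Agent.H598R2.Ns`), with legs of length `T` instead of `N + 1`.
-/

set_option autoImplicit false

namespace Pool.Agent.Y605.NS

/-- labels of the vertices: `inl s` is the single vertex `s = (layer, sign)`; `inr ((c, s), (t, q))`
is the `q`-th twin at distance `t` of the leg of the centre `c` that is attached to `s` -/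
abbrev L : Type := (ℕ × ℕ) ⊕ ((ℕ × (ℕ × ℕ)) × (ℕ × ℕ))

/-- the adjacency of labels -/
def adjL (N T : ℕ) : L → L → Prop
  | Sum.inl s, Sum.inl s' => s.1 = s'.1 + 1 ∨ s'.1 = s.1 + 1 ∨ (s.1 = 0 ∧ s'.1 = N + 1) ∨
      (s.1 = N + 1 ∧ s'.1 = 0)
  | Sum.inl s, Sum.inr x => s = x.1.2 ∧ x.2.1 = 0
  | Sum.inr x, Sum.inl s => s = x.1.2 ∧ x.2.1 = 0
  | Sum.inr x, Sum.inr y => x.1.1 = y.1.1 ∧
      ((x.1.2 = y.1.2 ∧ x.2.1 ≤ y.2.1 + 1 ∧ y.2.1 ≤ x.2.1 + 1) ∨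
        (x.1.2 ≠ y.1.2 ∧ x.2.1 = T ∧ y.2.1 = T))

theorem adjL_symm {N T : ℕ} {x y : L} (h : adjL N T x y) : adjL N T y x := by
  cases x with
  | inl s => cases y with
    | inl s' => simp only [adjL] at h ⊢; omega
    | inr y => exact h
  | inr x => cases y with
    | inl s' => exact h
    | inr y =>
      simp only [adjL] at h ⊢
      obtain ⟨h1, h2⟩ := h
      refine ⟨h1.symm, ?_⟩
      rcases h2 with ⟨h2, h3, h4⟩ | ⟨h2, h3, h4⟩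
      · exact Or.inl ⟨h2.symm, h4, h3⟩
      · exact Or.inr ⟨fun h => h2 h.symm, h4, h3⟩

/-- the single vertices -/
def Sg (N : ℕ) (s : ℕ × ℕ) : Prop := s = (0, 0) ∨ s = (N + 1, 0) ∨ (1 ≤ s.1 ∧ s.1 ≤ N ∧ s.2 < 2)

/-- the labels that occur; `A c s` says that the centre `c` has a leg attached to `s` -/
def Val (N T : ℕ) (A : ℕ → ℕ × ℕ → Prop) : L → Prop
  | Sum.inl s => Sg N s
  | Sum.inr x => A x.1.1 x.1.2 ∧ x.2.1 < T + 1 ∧ x.2.2 < 3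

/-- a graph with labels -/
structure Lab (N T : ℕ) (A : ℕ → ℕ × ℕ → Prop) {n : ℕ} (G : SimpleGraph (Fin n))
    (f : Fin n → L) : Prop where
  inj : Function.Injective f
  val : ∀ i, Val N T A (f i)
  surj : ∀ x, Val N T A x → ∃ i, f i = x
  adj : ∀ i j, G.Adj i j ↔ i ≠ j ∧ adjL N T (f i) (f j)
  hub : ∀ s, A 0 s ↔ Sg N s
  sg : ∀ c s, A c s → Sg N s

variable {N T : ℕ} {A : ℕ → ℕ × ℕ → Prop} {n : ℕ} {G : SimpleGraph (Fin n)} {f : Fin n → L}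

section conn

variable (h : Lab N T A G f) {S : Set (Fin n)}
  (h1 : ∀ c s t, A c s → t < T + 1 → ∃ i, i ∉ S ∧ ∃ q, q < 3 ∧ f i = Sum.inr ((c, s), (t, q)))
  (h2 : ∀ c s, A c s → ∃ s' i, A c s' ∧ i ∉ S ∧ f i = Sum.inl s')

include h

theorem reach_of_adjL {i j : Fin n} (hi : i ∈ Sᶜ) (hj : j ∈ Sᶜ) (ha : adjL N T (f i) (f j)) :
    (G.induce Sᶜ).Reachable ⟨i, hi⟩ ⟨j, hj⟩ := by
  by_cases hij : i = j
  · subst hij
    exact SimpleGraph.Reachable.refl _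
  · apply SimpleGraph.Adj.reachable
    rw [SimpleGraph.induce_adj]
    exact (h.adj i j).2 ⟨hij, ha⟩

include h1

theorem reach_up {c : ℕ} {s : ℕ × ℕ} (hA : A c s) {i : Fin n} (hi : i ∈ Sᶜ) {t q : ℕ}
    (hf : f i = Sum.inr ((c, s), (t, q))) : ∀ k, t + k < T + 1 → ∃ (j : Fin n) (hj : j ∈ Sᶜ),
      (∃ q', f j = Sum.inr ((c, s), (t + k, q'))) ∧ (G.induce Sᶜ).Reachable ⟨i, hi⟩ ⟨j, hj⟩ := by
  intro k
  induction k with
  | zero => intro _; exact ⟨i, hi, ⟨q, hf⟩, SimpleGraph.Reachable.refl _⟩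
  | succ k ih =>
    intro hk
    obtain ⟨j, hj, ⟨q', hq'⟩, hr⟩ := ih (by omega)
    obtain ⟨j', hj', q'', _, hf'⟩ := h1 c s (t + (k + 1)) hA (by omega)
    refine ⟨j', hj', ⟨q'', hf'⟩, hr.trans (reach_of_adjL h hj hj' ?_)⟩
    rw [hq', hf']
    exact ⟨rfl, Or.inl ⟨rfl, by simp only; omega, by simp only; omega⟩⟩

theorem reach_top {c : ℕ} {s : ℕ × ℕ} (hA : A c s) {i : Fin n} (hi : i ∈ Sᶜ) {t q : ℕ}
    (ht : t < T + 1) (hf : f i = Sum.inr ((c, s), (t, q))) : ∃ (j : Fin n) (hj : j ∈ Sᶜ),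
      (∃ q', f j = Sum.inr ((c, s), (T, q'))) ∧ (G.induce Sᶜ).Reachable ⟨i, hi⟩ ⟨j, hj⟩ := by
  obtain ⟨j, hj, ⟨q', hq'⟩, hr⟩ := reach_up h h1 hA hi hf (T - t) (by omega)
  refine ⟨j, hj, ⟨q', ?_⟩, hr⟩
  rw [hq', show t + (T - t) = T by omega]

/-- all vertices of the legs of a centre are in one component -/
theorem reach_centre {c : ℕ} {s s' : ℕ × ℕ} (hA : A c s) (hA' : A c s') {i i' : Fin n}
    (hi : i ∈ Sᶜ) (hi' : i' ∈ Sᶜ) {t t' q q' : ℕ} (ht : t < T + 1) (ht' : t' < T + 1)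
    (hf : f i = Sum.inr ((c, s), (t, q))) (hf' : f i' = Sum.inr ((c, s'), (t', q'))) :
    (G.induce Sᶜ).Reachable ⟨i, hi⟩ ⟨i', hi'⟩ := by
  obtain ⟨j, hj, ⟨p, hp⟩, hr⟩ := reach_top h h1 hA hi ht hf
  obtain ⟨j', hj', ⟨p', hp'⟩, hr'⟩ := reach_top h h1 hA' hi' ht' hf'
  refine (hr.trans (reach_of_adjL h hj hj' ?_)).trans hr'.symm
  rw [hp, hp']
  refine ⟨rfl, ?_⟩
  by_cases hs : s = s'
  · exact Or.inl ⟨hs, by simp, by simp⟩
  · exact Or.inr ⟨hs, rfl, rfl⟩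

/-- a single vertex is connected to the leg of each centre attached to it -/
theorem reach_single {c : ℕ} {s : ℕ × ℕ} (hA : A c s) {i : Fin n} (hi : i ∈ Sᶜ)
    (hf : f i = Sum.inl s) : ∃ (j : Fin n) (hj : j ∈ Sᶜ),
      (∃ q', f j = Sum.inr ((c, s), (0, q'))) ∧ (G.induce Sᶜ).Reachable ⟨i, hi⟩ ⟨j, hj⟩ := by
  obtain ⟨j, hj, q, _, hq⟩ := h1 c s 0 hA (by omega)
  refine ⟨j, hj, ⟨q, hq⟩, reach_of_adjL h hi hj ?_⟩
  rw [hf, hq]
  exact ⟨rfl, rfl⟩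

include h2

theorem conn : (G.induce Sᶜ).Connected := by
  have hA0 : A 0 (0, 0) := (h.hub _).2 (Or.inl rfl)
  obtain ⟨b, hb, qb, _, hfb⟩ := h1 0 (0, 0) 0 hA0 (by omega)
  have hb' : b ∈ Sᶜ := hb
  have hubr : ∀ (s : ℕ × ℕ) (t q : ℕ) (i : Fin n) (hi : i ∈ Sᶜ), A 0 s → t < T + 1 →
      f i = Sum.inr ((0, s), (t, q)) → (G.induce Sᶜ).Reachable ⟨i, hi⟩ ⟨b, hb'⟩ := by
    intro s t q i hi hA ht hf
    exact reach_centre h h1 hA hA0 hi hb' ht (by omega) hf hfb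
  have sgl : ∀ (s : ℕ × ℕ) (i : Fin n) (hi : i ∈ Sᶜ), f i = Sum.inl s →
      (G.induce Sᶜ).Reachable ⟨i, hi⟩ ⟨b, hb'⟩ := by
    intro s i hi hf
    have hs : Sg N s := by
      have := h.val i
      rw [hf] at this
      exact this
    have hA : A 0 s := (h.hub s).2 hs
    obtain ⟨j, hj, ⟨q, hq⟩, hr⟩ := reach_single h h1 hA hi hf
    exact hr.trans (hubr s 0 q j hj hA (by omega) hq)
  have key : ∀ i : (Sᶜ : Set (Fin n)), (G.induce Sᶜ).Reachable i ⟨b, hb'⟩ := by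
    rintro ⟨i, hi⟩
    cases hf : f i with
    | inl s => exact sgl s i hi hf
    | inr x =>
      obtain ⟨⟨c, s⟩, ⟨t, q⟩⟩ := x
      have hv := h.val i
      rw [hf] at hv
      obtain ⟨hA, ht, _⟩ := hv
      simp only at hA ht
      obtain ⟨s', j, hA', hj, hfj⟩ := h2 c s hA
      have hj' : j ∈ Sᶜ := hj
      obtain ⟨j2, hj2, ⟨q2, hq2⟩, hr⟩ := reach_single h h1 hA' hj' hfj
      exact ((reach_centre h h1 hA hA' hi hj2 ht (by omega) hf hq2).trans hr.symm).trans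
        (sgl s' j hj' hfj)
  have : Nonempty (Sᶜ : Set (Fin n)) := ⟨⟨b, hb'⟩⟩
  exact ⟨fun i j => (key i).trans (key j).symm⟩

end conn

end Pool.Agent.Y605.NS
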