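import Mathlib
import Pool.Agent.Y605.NS.Comb
import Pool.Agent.H598R2.NsDefs

/-!
# Induced nonseparating cycles in the labelled graph
-/

set_option autoImplicit false

namespace Pool.Agent.Y605.NS

open Pool.Agent.H598R2.Ns

variable {N T : ℕ} {A : ℕ → ℕ × ℕ → Prop} {n : ℕ} {G : SimpleGraph (Fin n)} {f : Fin n → L}

/-- among three different vertices one is outside a set with at most two members -/
theorem exists_notMem {S : Finset (Fin n)} (hS : S.card ≤ 2) (g : Fin 3 → Fin n)
    (hg : Function.Injective g) : ∃ k, g k ∉ S := by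
  by_contra hc
  push Not at hc
  have h1 : (Finset.univ.image g).card ≤ S.card := Finset.card_le_card (by
    intro x hx
    obtain ⟨k, _, rfl⟩ := Finset.mem_image.1 hx
    exact hc k)
  rw [Finset.card_image_of_injective _ hg, Finset.card_univ, Fintype.card_fin] at h1
  omega

theorem threeConnected (h : Lab N T A G f)
    (h3 : ∀ c s, A c s → ∃ g : Fin 3 → ℕ × ℕ, Function.Injective g ∧ ∀ k, A c (g k)) :
    ThreeConnected G := by
  have hA0 : A 0 (0, 0) := (h.hub _).2 (Or.inl rfl)
  -- the twins at a position
  have tw : ∀ c s t, A c s → t < T + 1 → ∃ g : Fin 3 → Fin n, Function.Injective g ∧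
      ∀ k, f (g k) = Sum.inr ((c, s), (t, k.1)) := by
    intro c s t hA ht
    have : ∀ k : Fin 3, ∃ i, f i = Sum.inr ((c, s), (t, k.1)) := fun k =>
      h.surj _ ⟨hA, ht, k.2⟩
    choose g hg using this
    refine ⟨g, ?_, hg⟩
    intro a b hab
    have h4 := hg a
    rw [hab, hg b] at h4
    simp only [Sum.inr.injEq, Prod.mk.injEq, true_and] at h4
    exact Fin.ext h4.symm
  constructor
  · obtain ⟨g, hg, hgf⟩ := tw 0 (0, 0) 0 hA0 (by omega)
    obtain ⟨u, hu⟩ := h.surj (Sum.inl (0, 0)) (Or.inl rfl)
    have hu' : u ∉ Finset.univ.image g := by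
      intro hu'
      obtain ⟨k, _, hk⟩ := Finset.mem_image.1 hu'
      rw [← hk, hgf k] at hu
      simp at hu
    have h5 : (insert u (Finset.univ.image g)).card = 4 := by
      rw [Finset.card_insert_of_notMem hu', Finset.card_image_of_injective _ hg,
        Finset.card_univ, Fintype.card_fin]
    rw [← h5]
    exact Finset.card_le_univ _
  · intro S hS
    refine conn h ?_ ?_
    · intro c s t hA ht
      obtain ⟨g, hg, hgf⟩ := tw c s t hA ht
      obtain ⟨k, hk⟩ := exists_notMem hS g hg
      exact ⟨g k, by simpa using hk, k.1, k.2, hgf k⟩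
    · intro c s hA
      obtain ⟨g, hg, hgA⟩ := h3 c s hA
      have : ∀ k : Fin 3, ∃ i, f i = Sum.inl (g k) := fun k => h.surj _ (h.sg c _ (hgA k))
      choose g' hg' using this
      have hinj : Function.Injective g' := by
        intro a b hab
        have h4 := hg' a
        rw [hab, hg' b] at h4
        simp only [Sum.inl.injEq] at h4
        exact hg h4.symm
      obtain ⟨k, hk⟩ := exists_notMem hS g' hinj
      exact ⟨g k, g' k, hgA k, by simpa using hk, hg' k⟩

theorem exists_cycle (h : Lab N T A G f) {u v : Fin n} (hu : f u = Sum.inl (0, 0))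
    (hv : f v = Sum.inl (N + 1, 0)) (hN : 1 ≤ N) {p : ℕ → ℕ} (hp : ∀ i ≤ N + 1, Sg N (i, p i))
    (hc : ∀ c s, A c s → ∃ s', A c s' ∧ s'.2 ≠ p s'.1) :
    ∃ l, IsIndNonsep G u v l ∧ l.length = N + 2 := by
  have hex : ∀ i, ∃ x, i ≤ N + 1 → f x = Sum.inl (i, p i) := by
    intro i
    by_cases hi : i ≤ N + 1
    · obtain ⟨x, hx⟩ := h.surj (Sum.inl (i, p i)) (hp i hi)
      exact ⟨x, fun _ => hx⟩
    · exact ⟨u, fun hi' => absurd hi' hi⟩
  choose g hg using hex
  have hp0 : p 0 = 0 := by
    rcases hp 0 (by omega) with h' | h' | h'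
    · exact congrArg Prod.snd h'
    · exact congrArg Prod.snd h'
    · simp only at h'; omega
  have hpN : p (N + 1) = 0 := by
    rcases hp (N + 1) le_rfl with h' | h' | h'
    · exact congrArg Prod.snd h'
    · exact congrArg Prod.snd h'
    · simp only at h'; omega
  have hg0 : g 0 = u := h.inj (by rw [hg 0 (by omega), hp0, hu])
  have hgN : g (N + 1) = v := h.inj (by rw [hg (N + 1) le_rfl, hpN, hv])
  have hginj : ∀ i j, i ≤ N + 1 → j ≤ N + 1 → g i = g j → i = j := by
    intro i j hi hj hij
    have h1 := hg i hi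
    rw [hij, hg j hj] at h1
    simp only [Sum.inl.injEq, Prod.mk.injEq] at h1
    exact h1.1.symm
  set l := (List.range (N + 2)).map g with hl
  have hlen : l.length = N + 2 := by simp [hl]
  have hmem : ∀ x, x ∈ l ↔ ∃ i ≤ N + 1, g i = x := by
    intro x
    simp only [hl, List.mem_map, List.mem_range]
    constructor
    · rintro ⟨i, hi, rfl⟩; exact ⟨i, by omega, rfl⟩
    · rintro ⟨i, hi, rfl⟩; exact ⟨i, by omega, rfl⟩
  have hget : ∀ i (hi : i < l.length), l[i] = g i := by
    intro i hi
    simp [hl]
  have huv : G.Adj u v := by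
    rw [h.adj]
    refine ⟨fun he => ?_, ?_⟩
    · rw [he, hv] at hu
      simp at hu
    · rw [hu, hv]
      exact Or.inr (Or.inr (Or.inl ⟨rfl, rfl⟩))
  have hcyc : IsCycleThrough G u v l := by
    refine ⟨?_, ?_, ?_, ?_, by omega, huv⟩
    · rw [hl, List.range_succ_eq_map, List.map_cons, List.head?_cons, hg0]
    · rw [hl, List.range_succ, List.map_append, List.map_singleton,
        List.getLast?_append, List.getLast?_singleton, hgN]
      rfl
    · refine List.Nodup.map_on ?_ List.nodup_range
      intro i hi j hj hij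
      rw [List.mem_range] at hi hj
      exact hginj i j (by omega) (by omega) hij
    · rw [List.isChain_iff_getElem]
      intro i hi
      rw [hlen] at hi
      rw [hget, hget, h.adj]
      refine ⟨fun he => ?_, ?_⟩
      · have := hginj i (i + 1) (by omega) (by omega) he
        omega
      · rw [hg i (by omega), hg (i + 1) (by omega)]
        exact Or.inr (Or.inl rfl)
  refine ⟨l, ⟨hcyc, ?_⟩, hlen⟩
  have hch : chords G l = ∅ := by
    rw [Set.eq_empty_iff_forall_notMem]
    intro e he
    obtain ⟨he1, he2, he3⟩ := he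
    induction e using Sym2.ind with
    | _ x y =>
      rw [SimpleGraph.mem_edgeSet, h.adj] at he1
      obtain ⟨i, hi, rfl⟩ := (hmem x).1 (he2 x (by simp))
      obtain ⟨j, hj, rfl⟩ := (hmem y).1 (he2 y (by simp))
      obtain ⟨_, ha⟩ := he1
      rw [hg i hi, hg j hj] at ha
      simp only [adjL] at ha
      have cons : ∀ i < N + 2, s(g i, g ((i + 1) % (N + 2))) ∈ cycleEdges l := by
        intro i hi
        unfold cycleEdges
        rw [List.mem_iff_getElem]
        refine ⟨i, by simp [hlen, hi], ?_⟩
        rw [List.getElem_zipWith, List.getElem_rotate, hget, hget, hlen]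
      apply he3
      rcases ha with ha | ha | ⟨ha, hb⟩ | ⟨ha, hb⟩
      · have := cons j (by omega)
        rw [Nat.mod_eq_of_lt (by omega), ← ha] at this
        rw [Sym2.eq_swap]; exact this
      · have := cons i (by omega)
        rwa [Nat.mod_eq_of_lt (by omega), ← ha] at this
      · have := cons (N + 1) (by omega)
        rw [Nat.mod_self] at this
        rw [ha, hb, Sym2.eq_swap]; exact this
      · have := cons (N + 1) (by omega)
        rw [Nat.mod_self] at this
        rw [ha, hb]; exact this
  have hcn : (G.induce {x | x ∉ l}).Connected := by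
    have := conn h (S := {x | x ∈ l}) ?_ ?_
    · exact this
    · intro c s t hA ht
      obtain ⟨i, hi⟩ := h.surj (Sum.inr ((c, s), (t, 0))) ⟨hA, ht, by simp⟩
      refine ⟨i, ?_, 0, by omega, hi⟩
      intro hil
      obtain ⟨j, hj, rfl⟩ := (hmem i).1 hil
      rw [hg j hj] at hi
      simp at hi
    · intro c s hA
      obtain ⟨s', hA', hne⟩ := hc c s hA
      obtain ⟨i, hi⟩ := h.surj (Sum.inl s') (h.sg c s' hA')
      refine ⟨s', i, hA', ?_, hi⟩
      intro hil
      obtain ⟨j, hj, rfl⟩ := (hmem i).1 hil
      rw [hg j hj] at hi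
      simp only [Sum.inl.injEq] at hi
      rw [← hi] at hne
      exact hne rfl
  unfold numBridges
  rw [hch, Set.ncard_empty, zero_add, Nat.card_eq_one_iff_unique]
  refine ⟨hcn.preconnected.subsingleton_connectedComponent, ?_⟩
  obtain ⟨x⟩ := hcn.nonempty
  exact ⟨SimpleGraph.connectedComponentMk _ x⟩

/-- the layer of a label -/
def lay : L → ℕ
  | Sum.inl s => s.1
  | Sum.inr x => x.1.2.1

/-- the distance of a label from the single vertices -/
def dep : L → ℕ
  | Sum.inl _ => 0
  | Sum.inr x => x.2.1

theorem dep_le {x y : L} (h : adjL N T x y) : dep y ≤ dep x + 1 := by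
  cases x with
  | inl s => cases y with
    | inl s' => simp [dep]
    | inr y => simp only [adjL] at h; simp only [dep]; omega
  | inr x => cases y with
    | inl s' => simp [dep]
    | inr y =>
      simp only [adjL] at h
      simp only [dep]
      omega

theorem lay_eq {x y : L} (h : adjL N T x y) (hx : dep x < T) (hs : ∀ s, x ≠ Sum.inl s) :
    lay y = lay x := by
  cases x with
  | inl s => exact absurd rfl (hs s)
  | inr x => cases y with
    | inl s' =>
      simp only [adjL] at h
      simp only [lay]
      rw [h.1]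
    | inr y =>
      simp only [adjL] at h
      simp only [dep] at hx
      rcases h.2 with h' | h'
      · simp only [lay]
        rw [h'.1]
      · omega

/-- All vertices of a cycle of length at most `T + 1` through the edge are single. -/
theorem single (h : Lab N T A G f) {u v : Fin n} (hu : f u = Sum.inl (0, 0))
    (hv : f v = Sum.inl (N + 1, 0)) {l : List (Fin n)} (hcyc : IsCycleThrough G u v l)
    (hlen : l.length ≤ T + 1) : ∀ i (hi : i < l.length), ∃ s, f l[i] = Sum.inl s := by
  classical
  have hl3 := hcyc.three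
  have hadj : ∀ i (hi : i + 1 < l.length), adjL N T (f l[i]) (f l[i + 1]) := by
    intro i hi
    have := (List.isChain_iff_getElem.1 hcyc.chain) i hi
    exact ((h.adj _ _).1 this).2
  have h0 : l[0]'(by omega) = u := by
    have := hcyc.first
    rw [List.head?_eq_getElem?, List.getElem?_eq_getElem (by omega)] at this
    exact Option.some.inj this
  have hlast : l[l.length - 1]'(by omega) = v := by
    have := hcyc.last
    rw [List.getLast?_eq_getElem?, List.getElem?_eq_getElem (by omega)] at this
    exact Option.some.inj this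
  have hne : ∀ i j (hi : i < l.length) (hj : j < l.length), l[i] = l[j] → i = j := by
    intro i j hi hj hij
    exact (List.Nodup.getElem_inj_iff hcyc.nodup).1 hij
  by_contra hcon
  push Not at hcon
  have hex : ∃ i, ∃ hi : i < l.length, ∀ s, f l[i] ≠ Sum.inl s := hcon
  obtain ⟨hi, hns⟩ := Nat.find_spec hex
  have hmin : ∀ j (hj : j < l.length), j < Nat.find hex → ∃ s, f l[j] = Sum.inl s := by
    intro j hj hlt
    by_contra hc
    push Not at hc
    exact Nat.find_min hex hlt ⟨hj, hc⟩
  generalize Nat.find hex = i at hi hns hmin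
  have hipos : i ≠ 0 := by
    rintro rfl
    exact hns (0, 0) (by rw [h0, hu])
  obtain ⟨x, hx⟩ : ∃ x, f l[i] = Sum.inr x := by
    cases hc : f l[i] with
    | inl s => exact absurd hc (hns s)
    | inr x => exact ⟨x, rfl⟩
  obtain ⟨s, hs⟩ := hmin (i - 1) (by omega) (by omega)
  have e1 : i - 1 + 1 = i := by omega
  have ha := hadj (i - 1) (by omega)
  simp only [e1] at ha
  rw [hs, hx] at ha
  simp only [adjL] at ha
  have key : ∀ k (hk : i + k < l.length), ∃ y, f l[i + k] = Sum.inr y ∧ y.1 = x.1 ∧ y.2.1 ≤ k := by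
    intro k
    induction k with
    | zero =>
      intro hk
      exact ⟨x, hx, rfl, ha.2.le⟩
    | succ k ih =>
      intro hk
      obtain ⟨y, hy, hy1, hy2⟩ := ih (by omega)
      have hA := hadj (i + k) (by omega)
      rw [hy] at hA
      have e2 : i + k + 1 = i + (k + 1) := by omega
      simp only [e2] at hA
      cases hz : f l[i + (k + 1)] with
      | inl s' =>
        exfalso
        rw [hz] at hA
        simp only [adjL] at hA
        have e3 : l[i + (k + 1)] = l[i - 1]'(by omega) := by
          apply h.inj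
          rw [hz, hs, ha.1, hA.1, hy1]
        have := hne _ _ _ _ e3
        omega
      | inr z =>
        rw [hz] at hA
        simp only [adjL] at hA
        rcases hA.2 with hA2 | hA2
        · refine ⟨z, rfl, ?_, by omega⟩
          rw [← hy1]
          exact Prod.ext hA.1.symm hA2.1.symm
        · omega
  obtain ⟨y, hy, -, -⟩ := key (l.length - 1 - i) (by omega)
  have e4 : i + (l.length - 1 - i) = l.length - 1 := by omega
  simp only [e4] at hy
  rw [hlast, hv] at hy
  simp at hy

theorem of_cycle (h : Lab N T A G f) {u v : Fin n} (hu : f u = Sum.inl (0, 0))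
    (hv : f v = Sum.inl (N + 1, 0)) (hN : 1 ≤ N) {l : List (Fin n)} (hl : IsIndNonsep G u v l)
    (hlen : l.length ≤ T + 1) :
    ∃ p : ℕ → ℕ, (∀ i ≤ N + 1, Sg N (i, p i)) ∧ ∀ c s, A c s → ∃ s', A c s' ∧ s'.2 ≠ p s'.1 := by
  classical
  obtain ⟨hcyc, hbr⟩ := hl
  have hl3 := hcyc.three
  have hadj : ∀ i (hi : i + 1 < l.length), adjL N T (f l[i]) (f l[i + 1]) := by
    intro i hi
    have := (List.isChain_iff_getElem.1 hcyc.chain) i hi
    exact ((h.adj _ _).1 this).2
  have h0 : l[0]'(by omega) = u := by
    have := hcyc.first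
    rw [List.head?_eq_getElem?, List.getElem?_eq_getElem (by omega)] at this
    exact Option.some.inj this
  have hlast : l[l.length - 1]'(by omega) = v := by
    have := hcyc.last
    rw [List.getLast?_eq_getElem?, List.getElem?_eq_getElem (by omega)] at this
    exact Option.some.inj this
  have hne : ∀ i j (hi : i < l.length) (hj : j < l.length), l[i] = l[j] → i = j := by
    intro i j hi hj hij
    exact (List.Nodup.getElem_inj_iff hcyc.nodup).1 hij
  have hsing := single h hu hv hcyc hlen
  have hex : ∀ i, ∃ s : ℕ × ℕ, ∀ (hi : i < l.length), f l[i] = Sum.inl s := by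
    intro i
    by_cases hi : i < l.length
    · obtain ⟨s, hs⟩ := hsing i hi
      exact ⟨s, fun _ => hs⟩
    · exact ⟨(0, 0), fun hi' => absurd hi' hi⟩
  choose a hap using hex
  have ha0 : a 0 = (0, 0) := by
    have := hap 0 (by omega)
    rw [h0, hu] at this
    exact (Sum.inl.inj this).symm
  have halast : a (l.length - 1) = (N + 1, 0) := by
    have := hap (l.length - 1) (by omega)
    rw [hlast, hv] at this
    exact (Sum.inl.inj this).symm
  have hSg : ∀ i, i < l.length → Sg N (a i) := by
    intro i hi
    have := h.val l[i]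
    rw [hap i hi] at this
    exact this
  -- the layer rises by at most one
  have hstep : ∀ i, i + 1 < l.length → (a (i + 1)).1 ≤ (a i).1 + 1 := by
    intro i hi
    have hA := hadj i hi
    rw [hap i (by omega), hap (i + 1) hi] at hA
    simp only [adjL] at hA
    rcases hA with hA | hA | ⟨hA, hB⟩ | ⟨hA, hB⟩
    · omega
    · omega
    · exfalso
      have ex : a i = (0, 0) := by
        rcases hSg i (by omega) with e | e | e
        · exact e
        · rw [e] at hA; simp at hA
        · omega
      have ey : a (i + 1) = (N + 1, 0) := by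
        rcases hSg (i + 1) hi with e | e | e
        · rw [e] at hB; simp at hB
        · exact e
        · omega
      have e1 : l[i] = l[0]'(by omega) := by
        apply h.inj
        rw [hap i (by omega), ex, h0, hu]
      have e2 : l[i + 1] = l[l.length - 1]'(by omega) := by
        apply h.inj
        rw [hap (i + 1) hi, ey, hlast, hv]
      have e3 := hne _ _ _ _ e1
      have e4 := hne _ _ _ _ e2
      omega
    · omega
  -- all layers are visited
  have hvis : ∀ t, ∃ j, t ≤ N + 1 → j < l.length ∧ (a j).1 = t := by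
    intro t
    by_cases ht : t ≤ N + 1
    · have hex : ∃ j, j < l.length ∧ t ≤ (a j).1 :=
        ⟨l.length - 1, by omega, by rw [halast]; exact ht⟩
      obtain ⟨h1, h2⟩ := Nat.find_spec hex
      have hmin : ∀ j, j < Nat.find hex → ¬ (j < l.length ∧ t ≤ (a j).1) := fun j hj =>
        Nat.find_min hex hj
      generalize Nat.find hex = j at h1 h2 hmin
      refine ⟨j, fun _ => ⟨h1, ?_⟩⟩
      by_cases hj : j = 0
      · subst hj
        rw [ha0] at h2 ⊢
        simp only at h2 ⊢
        omega
      · have h3 := hmin (j - 1) (by omega)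
        have h4 := hstep (j - 1) (by omega)
        have e : j - 1 + 1 = j := by omega
        rw [e] at h4
        have h5 : (a (j - 1)).1 < t := by
          by_contra hc
          exact h3 ⟨by omega, by omega⟩
        omega
    · exact ⟨0, fun h' => absurd h' ht⟩
  choose w hw using hvis
  have hpa : ∀ i ≤ N + 1, a (w i) = (i, (a (w i)).2) := by
    intro i hi
    exact Prod.ext (hw i hi).2 rfl
  refine ⟨fun i => (a (w i)).2, ?_, ?_⟩
  · intro i hi
    have := hSg (w i) (hw i hi).1
    rw [hpa i hi] at this
    exact this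
  intro c s hA
  by_cases hc0 : c = 0
  · subst hc0
    by_cases hp1 : (a (w 1)).2 = 0
    · exact ⟨(1, 1), (h.hub _).2 (Or.inr (Or.inr ⟨le_rfl, hN, by simp⟩)), by simp [hp1]⟩
    · exact ⟨(1, 0), (h.hub _).2 (Or.inr (Or.inr ⟨le_rfl, hN, by simp⟩)), by
        simpa [eq_comm] using hp1⟩
  by_contra hcon
  push Not at hcon
  -- two components
  have hA0 : A 0 (0, 0) := (h.hub _).2 (Or.inl rfl)
  have hnotl : ∀ i x, f i = Sum.inr x → i ∉ l := by
    intro i x hi hil
    obtain ⟨j, hj, rfl⟩ := List.mem_iff_getElem.1 hil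
    obtain ⟨s, hs⟩ := hsing j hj
    rw [hs] at hi
    simp at hi
  obtain ⟨b, hb⟩ := h.surj (Sum.inr ((0, (0, 0)), (0, 0))) ⟨hA0, by simp, by simp⟩
  obtain ⟨a', ha'⟩ := h.surj (Sum.inr ((c, s), (0, 0))) ⟨hA, by simp, by simp⟩
  have hfin : Nat.card (G.induce {x | x ∉ l}).ConnectedComponent ≤ 1 := by
    unfold numBridges at hbr
    omega
  rw [Finite.card_le_one_iff_subsingleton] at hfin
  have hreach : (G.induce {x | x ∉ l}).Reachable ⟨a', hnotl a' _ ha'⟩ ⟨b, hnotl b _ hb⟩ :=
    SimpleGraph.ConnectedComponent.eq.1 (Subsingleton.elim _ _)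
  have hclosed : ∀ x y : {x | x ∉ l}, (G.induce {x | x ∉ l}).Walk x y →
      (∃ z, f x = Sum.inr z ∧ z.1.1 = c) → ∃ z, f y = Sum.inr z ∧ z.1.1 = c := by
    intro x y w'
    induction w' with
    | nil => exact id
    | @cons x z y hxz _ ih =>
      intro hx
      apply ih
      obtain ⟨q, hq, hqc⟩ := hx
      rw [SimpleGraph.induce_adj, h.adj] at hxz
      obtain ⟨_, hxz⟩ := hxz
      rw [hq] at hxz
      cases hz : f z with
      | inl s' =>
        exfalso
        rw [hz] at hxz
        simp only [adjL] at hxz
        have hv' := h.val x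
        rw [hq] at hv'
        obtain ⟨hA', _, _⟩ := hv'
        rw [hqc, ← hxz.1] at hA'
        have h6 := hcon s' hA'
        have hs' := h.sg _ _ hA'
        have h7 : s'.1 ≤ N + 1 := by
          rcases hs' with e | e | e
          · rw [e]; simp
          · rw [e]
          · omega
        have h8 : (z : Fin n) = l[w s'.1]'(hw s'.1 h7).1 := by
          apply h.inj
          rw [hz, hap _ (hw s'.1 h7).1, hpa s'.1 h7, ← h6]
        exact z.2 (h8 ▸ List.getElem_mem _)
      | inr z' =>
        rw [hz] at hxz
        simp only [adjL] at hxz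
        exact ⟨z', rfl, by rw [← hqc]; exact hxz.1.symm⟩
  obtain ⟨w'⟩ := hreach
  obtain ⟨z, hz, hzc⟩ := hclosed _ _ w' ⟨_, ha', rfl⟩
  rw [hb] at hz
  simp only [Sum.inr.injEq] at hz
  rw [← hz] at hzc
  exact hc0 hzc.symm

end Pool.Agent.Y605.NS
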