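import Mathlib
import Pool.Agent.Y605.NS.Lists

/-!
# The reduction with a gap
-/

set_option autoImplicit false

namespace Pool.Agent.Y605.NS

open Pool.Agent.H598R2.Ns Pool.Agent.NPC Pool.Agent.NPC.H598R2
open Pool.Agent.NPC.H634R2 (Cl3)

/-- the promise on formulas -/
def Pf (φ : List Cl3) : Prop := Distinct3 φ ∧ Bounded3 φ ∧ φ ≠ []

/-- the graph of the reduction -/
noncomputable def gr (T : ℕ) (φ : List Cl3) : Graph :=
  ((dd (vL T φ)).length, adT (dd (vL T φ)) (tb (nv φ) T))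

theorem isGraph_gr (T : ℕ) (φ : List Cl3) : IsGraph (gr T φ) := by
  constructor
  · rintro ⟨i, j⟩ h
    obtain ⟨h1, h2⟩ := adT_bound h
    exact ⟨h1.trans h2, h2, h1.ne⟩
  · refine List.Nodup.map_on ?_ (adT_nodup _ _)
    rintro ⟨i, j⟩ h1 ⟨i', j'⟩ h2 heq
    have h3 := (adT_bound h1).1
    have h4 := (adT_bound h2).1
    simp only [Sym2.eq_iff] at heq
    rcases heq with ⟨rfl, rfl⟩ | ⟨rfl, rfl⟩
    · rfl
    · omega

/-- the labels of the vertices -/
noncomputable def fl (T : ℕ) (φ : List Cl3) : Fin (gr T φ).1 → L := fun i => (dd (vL T φ))[i.1]'i.2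

theorem sl_sg {φ : List Cl3} (hφ : Pf φ) {cl : Cl3} (hcl : cl ∈ φ) {s : ℕ × ℕ}
    (hs : s = sl cl.1 ∨ s = sl cl.2.1 ∨ s = sl cl.2.2) : Sg (nv φ) s := by
  have hb := hφ.2.1 cl hcl
  have key : ∀ l : Lit ℕ, l.2 < 3 * φ.length → Sg (nv φ) (sl l) := by
    intro l hl
    right; right
    unfold sl nv
    refine ⟨by simp, by simp only; omega, ?_⟩
    simp only
    split_ifs <;> omega
  rcases hs with rfl | rfl | rfl
  · exact key _ hb.1
  · exact key _ hb.2.1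
  · exact key _ hb.2.2

theorem lab (T : ℕ) {φ : List Cl3} (hφ : Pf φ) : Lab (nv φ) T (Att φ) (toG (gr T φ)) (fl T φ) := by
  refine ⟨?_, ?_, ?_, ?_, ?_, ?_⟩
  · intro i j hij
    exact Fin.ext ((List.Nodup.getElem_inj_iff (nodup_dd _)).1 hij)
  · intro i
    rw [← mem_vL, ← mem_dd]
    exact List.getElem_mem _
  · intro x hx
    rw [← mem_vL, ← mem_dd, List.mem_iff_getElem] at hx
    obtain ⟨i, hi, hix⟩ := hx
    exact ⟨⟨i, hi⟩, hix⟩
  · intro i j
    rw [toG, SimpleGraph.fromRel_adj]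
    refine and_congr_right fun hne => ?_
    have hget : ∀ k : Fin (gr T φ).1, (dd (vL T φ))[k.1]? = some (fl T φ k) := fun k =>
      List.getElem?_eq_getElem _
    constructor
    · rintro (h | h)
      · obtain ⟨v, w, h1, h2, _, h4⟩ := mem_adT.1 h
        rw [hget] at h1 h2
        rw [Option.some.inj h1, Option.some.inj h2]
        exact tb_iff.1 h4
      · obtain ⟨v, w, h1, h2, _, h4⟩ := mem_adT.1 h
        rw [hget] at h1 h2
        rw [Option.some.inj h1, Option.some.inj h2]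
        exact adjL_symm (tb_iff.1 h4)
    · intro h
      rcases lt_or_gt_of_ne (fun he => hne (Fin.ext he) : i.1 ≠ j.1) with hlt | hlt
      · exact Or.inl (mem_adT.2 ⟨_, _, hget i, hget j, hlt, tb_iff.2 h⟩)
      · exact Or.inr (mem_adT.2 ⟨_, _, hget j, hget i, hlt, tb_iff.2 (adjL_symm h)⟩)
  · intro s
    unfold Att
    constructor
    · rintro (h | ⟨j, cl, h, _⟩)
      · exact h.2
      · omega
    · intro h; exact Or.inl ⟨rfl, h⟩
  · rintro c s (h | ⟨j, cl, _, hj, hs⟩)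
    · exact h.2
    · exact sl_sg hφ (List.mem_of_getElem? hj) hs

theorem nv_pos {φ : List Cl3} (hφ : Pf φ) : 1 ≤ nv φ := by
  have : φ.length ≠ 0 := fun h => hφ.2.2 (List.length_eq_zero_iff.1 h)
  unfold nv
  omega

theorem att_three {φ : List Cl3} (hφ : Pf φ) : ∀ c s, Att φ c s →
    ∃ g : Fin 3 → ℕ × ℕ, Function.Injective g ∧ ∀ k, Att φ c (g k) := by
  have hN := nv_pos hφ
  rintro c s (h | ⟨j, cl, rfl, hj, hs⟩)
  · refine ⟨![(0, 0), (nv φ + 1, 0), (1, 0)], ?_, ?_⟩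
    · intro a b hab
      fin_cases a <;> fin_cases b <;> simp at hab ⊢ <;> omega
    · intro k
      fin_cases k
      · exact Or.inl ⟨h.1, Or.inl rfl⟩
      · exact Or.inl ⟨h.1, Or.inr (Or.inl rfl)⟩
      · exact Or.inl ⟨h.1, Or.inr (Or.inr ⟨le_rfl, hN, by simp⟩)⟩
  · have hd := hφ.1 cl (List.mem_of_getElem? hj)
    refine ⟨![sl cl.1, sl cl.2.1, sl cl.2.2], ?_, ?_⟩
    · have e1 : (sl cl.1).1 ≠ (sl cl.2.1).1 := by
        intro h; unfold sl at h; simp only at h; exact hd.1 (by omega)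
      have e2 : (sl cl.1).1 ≠ (sl cl.2.2).1 := by
        intro h; unfold sl at h; simp only at h; exact hd.2.1 (by omega)
      have e3 : (sl cl.2.1).1 ≠ (sl cl.2.2).1 := by
        intro h; unfold sl at h; simp only at h; exact hd.2.2 (by omega)
      intro a b hab
      fin_cases a <;> fin_cases b
      · rfl
      · exact absurd (congrArg Prod.fst hab) e1
      · exact absurd (congrArg Prod.fst hab) e2
      · exact absurd (congrArg Prod.fst hab).symm e1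
      · rfl
      · exact absurd (congrArg Prod.fst hab) e3
      · exact absurd (congrArg Prod.fst hab).symm e2
      · exact absurd (congrArg Prod.fst hab).symm e3
      · rfl
    · intro k
      fin_cases k
      · exact Or.inr ⟨j, cl, rfl, hj, Or.inl rfl⟩
      · exact Or.inr ⟨j, cl, rfl, hj, Or.inr (Or.inl rfl)⟩
      · exact Or.inr ⟨j, cl, rfl, hj, Or.inr (Or.inr rfl)⟩

/-- satisfiability and choices of single vertices -/
theorem sat_iff_choice {φ : List Cl3} (hφ : Pf φ) : SAT3 φ ↔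
    ∃ p : ℕ → ℕ, (∀ i ≤ nv φ + 1, Sg (nv φ) (i, p i)) ∧
      ∀ c s, Att φ c s → ∃ s', Att φ c s' ∧ s'.2 ≠ p s'.1 := by
  have hN := nv_pos hφ
  constructor
  · rintro ⟨τ, hτ⟩
    set p : ℕ → ℕ := fun i => if i = 0 ∨ i = nv φ + 1 then 0 else if τ (i - 1) then 0 else 1 with hp
    have hpx : ∀ x < nv φ, p (x + 1) = if τ x then 0 else 1 := by
      intro x hx
      simp only [hp]
      rw [if_neg (by omega)]
      simp
    have hp2 : ∀ i, p i < 2 := by
      intro i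
      simp only [hp]
      split_ifs <;> omega
    refine ⟨p, ?_, ?_⟩
    · intro i hi
      by_cases h0 : i = 0
      · left; subst h0; simp [hp]
      · by_cases h1 : i = nv φ + 1
        · right; left; subst h1; simp [hp]
        · right; right; exact ⟨by simp only; omega, by simp only; omega, hp2 i⟩
    · rintro c s (h | ⟨j, cl, rfl, hj, hs⟩)
      · by_cases hp1 : p 1 = 0
        · exact ⟨(1, 1), Or.inl ⟨h.1, Or.inr (Or.inr ⟨le_rfl, hN, by simp⟩)⟩, by simp [hp1]⟩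
        · exact ⟨(1, 0), Or.inl ⟨h.1, Or.inr (Or.inr ⟨le_rfl, hN, by simp⟩)⟩, by
            simpa [eq_comm] using hp1⟩
      · have hcl := List.mem_of_getElem? hj
        have hb := hφ.2.1 cl hcl
        have key : ∀ l : Lit ℕ, l.2 < 3 * φ.length → τ l.2 = l.1 → (sl l).2 ≠ p (sl l).1 := by
          intro l hl hlt
          unfold sl
          simp only
          rw [hpx l.2 hl, hlt]
          cases l.1 <;> simp
        rcases hτ cl hcl with h | h | h
        · exact ⟨sl cl.1, Or.inr ⟨j, cl, rfl, hj, Or.inl rfl⟩, key _ hb.1 h⟩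
        · exact ⟨sl cl.2.1, Or.inr ⟨j, cl, rfl, hj, Or.inr (Or.inl rfl)⟩, key _ hb.2.1 h⟩
        · exact ⟨sl cl.2.2, Or.inr ⟨j, cl, rfl, hj, Or.inr (Or.inr rfl)⟩, key _ hb.2.2 h⟩
  · rintro ⟨p, hp, hc⟩
    refine ⟨fun x => decide (p (x + 1) = 0), ?_⟩
    intro cl hcl
    have hb := hφ.2.1 cl hcl
    obtain ⟨j, hj, hjc⟩ := List.mem_iff_getElem.1 hcl
    have hj' : φ[j]? = some cl := by rw [List.getElem?_eq_getElem hj, hjc]
    have key : ∀ l : Lit ℕ, l.2 < 3 * φ.length → (sl l).2 ≠ p (sl l).1 →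
        decide (p (l.2 + 1) = 0) = l.1 := by
      intro l hl hne
      have h1 := hp (l.2 + 1) (by unfold nv; omega)
      have h2 : p (l.2 + 1) < 2 := by
        rcases h1 with e | e | e
        · simp at e
        · simp only [Prod.mk.injEq] at e; omega
        · exact e.2.2
      unfold sl at hne
      simp only at hne
      cases hl1 : l.1 with
      | true =>
        rw [hl1] at hne
        simp only [if_true] at hne
        rw [decide_eq_true_eq]
        omega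
      | false =>
        rw [hl1] at hne
        simp only [Bool.false_eq_true, if_false] at hne
        rw [decide_eq_false_iff_not]
        omega
    obtain ⟨s', hs', hne⟩ := hc (j + 1) (sl cl.1) (Or.inr ⟨j, cl, rfl, hj', Or.inl rfl⟩)
    rcases hs' with h | ⟨j', cl', h, hj2, hs'⟩
    · omega
    · have : j' = j := by omega
      subst this
      rw [hj'] at hj2
      have hcc := Option.some.inj hj2
      subst hcc
      rcases hs' with rfl | rfl | rfl
      · exact Or.inl (key _ hb.1 hne)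
      · exact Or.inr (Or.inl (key _ hb.2.1 hne))
      · exact Or.inr (Or.inr (key _ hb.2.2 hne))

/-- the position of a label -/
noncomputable def ix (T : ℕ) (φ : List Cl3) (x : L) : ℕ := index (dd (vL T φ)) x

/-- the length of the legs -/
def TT (k : ℕ) (φ : List Cl3) : ℕ := (20 * (nv φ + 2) ^ 2) ^ k

theorem uTT (k : ℕ) : UPoly (TT k) := by
  have h := UPoly.eval (nv_upoly.add (UPoly.const 2))
    (((Polynomial.C 20 * Polynomial.X ^ 2 : Polynomial ℕ)) ^ k)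
  have e : (fun φ => (((Polynomial.C 20 * Polynomial.X ^ 2 : Polynomial ℕ)) ^ k).eval
      (nv φ + 2)) = TT k := by
    funext φ
    unfold TT
    simp
  rw [← e]
  exact h

/-- the instance -/
noncomputable def red (k : ℕ) (φ : List Cl3) : (Graph × (ℕ × ℕ)) × ℕ :=
  ((gr (TT k φ) φ, (ix (TT k φ) φ (Sum.inl (0, 0)), ix (TT k φ) φ (Sum.inl (nv φ + 1, 0)))),
    TT k φ)

theorem red_poly (k : ℕ) : Poly (red k) := by
  have hT : Poly (TT k) := (uTT k).toPoly
  have hv : Poly (fun φ : List Cl3 => dd (vL (TT k φ) φ)) := dd_poly (vL_poly (uTT k))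
  have hn : Poly nv := nv_upoly.toPoly
  refine NPC.Poly.pair (NPC.Poly.pair (NPC.Poly.pair (NPC.Poly.length hv)
    (adT_poly hv (tb_poly hn hT))) (NPC.Poly.pair (NPC.Poly.index hv (NPC.Poly.const _))
      (NPC.Poly.index hv (NPC.Poly.inl (NPC.Poly.pair (NPC.Poly.succ hn)
      (NPC.Poly.const 0)))))) hT

/-- A 3-connected graph with an edge. -/
def Inst (I : (Graph × (ℕ × ℕ)) × ℕ) : Prop :=
  IsGraph I.1.1 ∧ ThreeConnected (toG I.1.1) ∧
    ∃ a b : Fin I.1.1.1, a.val = I.1.2.1 ∧ b.val = I.1.2.2 ∧ (toG I.1.1).Adj a b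

/-- There is an induced nonseparating cycle of length at most `s` through the edge. -/
def Short (I : (Graph × (ℕ × ℕ)) × ℕ) (s : ℕ) : Prop :=
  ∃ a b : Fin I.1.1.1, a.val = I.1.2.1 ∧ b.val = I.1.2.2 ∧
    ∃ l, IsIndNonsep (toG I.1.1) a b l ∧ l.length ≤ s

/-- The promise problem with a gap. -/
theorem hardPr_gap (k : ℕ) (hk : 1 ≤ k) : HardPr
    (fun I : (Graph × (ℕ × ℕ)) × ℕ => Inst I ∧ ∃ s : ℕ, 1 ≤ s ∧ I.2 = (20 * s ^ 2) ^ k ∧
      I.1.1.1 ≤ 20 * s * I.2 ∧ (Short I I.2 → Short I s))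
    (fun I => Short I I.2) := by
  have key : ∀ φ, Pf φ → Inst (red k φ) ∧ (SAT3 φ → Short (red k φ) (nv φ + 2)) ∧
      (Short (red k φ) (TT k φ) → SAT3 φ) := by
    intro φ hφ
    have hlab := lab (TT k φ) hφ
    have hN := nv_pos hφ
    have hu : Sum.inl (0, 0) ∈ dd (vL (TT k φ) φ) := mem_dd.2 (mem_vL.2 (Or.inl rfl))
    have hv : Sum.inl (nv φ + 1, 0) ∈ dd (vL (TT k φ) φ) :=
      mem_dd.2 (mem_vL.2 (Or.inr (Or.inl rfl)))
    have hu2 : fl (TT k φ) φ ⟨ix (TT k φ) φ (Sum.inl (0, 0)), index_lt hu⟩ = Sum.inl (0, 0) := by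
      have := getElem?_index hu
      rw [List.getElem?_eq_getElem (index_lt hu)] at this
      exact Option.some.inj this
    have hv2 : fl (TT k φ) φ ⟨ix (TT k φ) φ (Sum.inl (nv φ + 1, 0)), index_lt hv⟩ =
        Sum.inl (nv φ + 1, 0) := by
      have := getElem?_index hv
      rw [List.getElem?_eq_getElem (index_lt hv)] at this
      exact Option.some.inj this
    refine ⟨?_, ?_, ?_⟩
    · have hadj : (toG (gr (TT k φ) φ)).Adj ⟨ix (TT k φ) φ (Sum.inl (0, 0)), index_lt hu⟩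
          ⟨ix (TT k φ) φ (Sum.inl (nv φ + 1, 0)), index_lt hv⟩ := by
        refine (hlab.adj _ _).2 ⟨?_, ?_⟩
        · intro he
          have := congrArg (fl (TT k φ) φ) he
          rw [hu2, hv2] at this
          simp at this
        · rw [hu2, hv2]
          exact Or.inr (Or.inr (Or.inl ⟨rfl, rfl⟩))
      exact ⟨isGraph_gr _ φ, threeConnected hlab (att_three hφ), _, _, rfl, rfl, hadj⟩
    · intro hs
      obtain ⟨p, hp, hc⟩ := (sat_iff_choice hφ).1 hs
      obtain ⟨l, hl, hlen⟩ := exists_cycle hlab hu2 hv2 hN hp hc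
      exact ⟨_, _, rfl, rfl, l, hl, hlen.le⟩
    · rintro ⟨a, b, ha, hb, l, hl, hlen⟩
      have ea : a = ⟨ix (TT k φ) φ (Sum.inl (0, 0)), index_lt hu⟩ := Fin.ext ha
      have eb : b = ⟨ix (TT k φ) φ (Sum.inl (nv φ + 1, 0)), index_lt hv⟩ := Fin.ext hb
      subst ea
      subst eb
      exact (sat_iff_choice hφ).2 (of_cycle hlab hu2 hv2 hN hl (hlen.trans (Nat.le_succ _)))
  have hmono : ∀ (I : (Graph × (ℕ × ℕ)) × ℕ) (s t : ℕ), s ≤ t → Short I s → Short I t := by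
    rintro I s t hst ⟨a, b, ha, hb, l, hl, hlen⟩
    exact ⟨a, b, ha, hb, l, hl, hlen.trans hst⟩
  have hle : ∀ φ, nv φ + 2 ≤ TT k φ := by
    intro φ
    unfold TT
    have h1 : 1 ≤ 20 * (nv φ + 2) ^ 2 := Nat.succ_le_of_lt (by positivity)
    have h2 : nv φ + 2 ≤ 20 * (nv φ + 2) ^ 2 := by nlinarith
    calc nv φ + 2 ≤ (20 * (nv φ + 2) ^ 2) ^ 1 := by rw [pow_one]; exact h2
      _ ≤ (20 * (nv φ + 2) ^ 2) ^ k := Nat.pow_le_pow_right h1 hk
  refine hardPr_SAT3b.trans (f := red k) (red_poly k) ?_ ?_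
  · intro φ hφ
    obtain ⟨h1, h2, h3⟩ := key φ hφ
    refine ⟨h1, nv φ + 2, by omega, rfl, ?_, fun h => h2 (h3 h)⟩
    exact card_le (le_trans (by omega) (hle φ)) φ
  · intro φ hφ
    obtain ⟨h1, h2, h3⟩ := key φ hφ
    exact ⟨fun h => hmono _ _ _ (hle φ) (h2 h), h3⟩

/-- The analytic part. -/
theorem ratio {ε : ℝ} (hε : 0 < ε) (hε1 : ε ≤ 1) {k s t n : ℕ} (hk : 1 ≤ k * ε) (hs : 1 ≤ s)
    (ht : t = (20 * s ^ 2) ^ k) (hn : n ≤ 20 * s * t) :
    (s : ℝ) * (n : ℝ) ^ (1 - ε) ≤ t := by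
  have hs' : (1 : ℝ) ≤ s := by exact_mod_cast hs
  have ht0 : (0 : ℝ) < t := by
    rw [ht]
    push_cast
    positivity
  have hn' : (n : ℝ) ≤ 20 * s * t := by exact_mod_cast hn
  have hb : (1 : ℝ) ≤ 20 * (s : ℝ) ^ 2 := by nlinarith
  have h1 : (n : ℝ) ^ (1 - ε) ≤ (20 * s * t) ^ (1 - ε) :=
    Real.rpow_le_rpow (Nat.cast_nonneg _) hn' (by linarith)
  have h2 : (20 * (s : ℝ) * t) ^ (1 - ε) = (20 * (s : ℝ)) ^ (1 - ε) * (t : ℝ) ^ (1 - ε) :=
    Real.mul_rpow (by positivity) ht0.le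
  have h3 : (20 * (s : ℝ)) ^ (1 - ε) ≤ 20 * s := by
    calc (20 * (s : ℝ)) ^ (1 - ε) ≤ (20 * (s : ℝ)) ^ (1 : ℝ) :=
          Real.rpow_le_rpow_of_exponent_le (by linarith) (by linarith)
      _ = 20 * s := Real.rpow_one _
  have h4 : 20 * (s : ℝ) ^ 2 ≤ (t : ℝ) ^ ε := by
    have e : (t : ℝ) = (20 * (s : ℝ) ^ 2) ^ (k : ℝ) := by
      rw [Real.rpow_natCast, ht]
      push_cast
      ring
    rw [e, ← Real.rpow_mul (by positivity)]
    calc 20 * (s : ℝ) ^ 2 = (20 * (s : ℝ) ^ 2) ^ (1 : ℝ) := (Real.rpow_one _).symm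
      _ ≤ (20 * (s : ℝ) ^ 2) ^ ((k : ℝ) * ε) := Real.rpow_le_rpow_of_exponent_le hb hk
  have h5 : (0 : ℝ) < (t : ℝ) ^ (1 - ε) := Real.rpow_pos_of_pos ht0 _
  calc (s : ℝ) * (n : ℝ) ^ (1 - ε) ≤ s * ((20 * s) ^ (1 - ε) * (t : ℝ) ^ (1 - ε)) := by
        rw [← h2]
        exact mul_le_mul_of_nonneg_left h1 (by linarith)
    _ ≤ s * ((20 * s) * (t : ℝ) ^ (1 - ε)) :=
        mul_le_mul_of_nonneg_left (mul_le_mul_of_nonneg_right h3 h5.le) (by linarith)
    _ = 20 * (s : ℝ) ^ 2 * (t : ℝ) ^ (1 - ε) := by ring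
    _ ≤ (t : ℝ) ^ ε * (t : ℝ) ^ (1 - ε) := mul_le_mul_of_nonneg_right h4 h5.le
    _ = t := by
        rw [← Real.rpow_add ht0]
        simp

theorem exists_k {ε : ℝ} (hε : 0 < ε) : ∃ k : ℕ, 1 ≤ k ∧ 1 ≤ k * ε := by
  obtain ⟨k, hk⟩ := exists_nat_ge (1 / ε)
  refine ⟨k + 1, by omega, ?_⟩
  rw [div_le_iff₀ hε] at hk
  push_cast
  nlinarith

/-- **The gap.** -/
theorem gap {ε : ℝ} (hε : 0 < ε) (hε1 : ε ≤ 1) (L : Set (List Bool)) (hL : InNP L) :
    ∃ f : List Bool → (Graph × (ℕ × ℕ)) × ℕ, PolyTime (fun w => bits (f w)) ∧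
      ∀ w, IsGraph (f w).1.1 ∧ ThreeConnected (toG (f w).1.1) ∧
        ∃ a b : Fin (f w).1.1.1, a.val = (f w).1.2.1 ∧ b.val = (f w).1.2.2 ∧
          (toG (f w).1.1).Adj a b ∧ ∃ s : ℕ, 1 ≤ s ∧
          (s : ℝ) * ((f w).1.1.1 : ℝ) ^ (1 - ε) ≤ (f w).2 ∧
          (w ∈ L → ∃ l, IsIndNonsep (toG (f w).1.1) a b l ∧ l.length ≤ s) ∧
          (w ∉ L → ∀ l, IsIndNonsep (toG (f w).1.1) a b l → (f w).2 < l.length) := by
  obtain ⟨k, hk1, hk⟩ := exists_k hε
  obtain ⟨f, hf, hpr, hfL⟩ := hardPr_gap k hk1 L hL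
  refine ⟨f, PC.toPolyTime hf, fun w => ?_⟩
  obtain ⟨⟨h1, h2, a, b, ha, hb, hab⟩, s, hs, hst, hn, hgap⟩ := hpr w
  refine ⟨h1, h2, a, b, ha, hb, hab, s, hs, ratio hε hε1 hk hs hst hn, ?_, ?_⟩
  · intro hw
    obtain ⟨a', b', ha', hb', l, hl, hlen⟩ := hgap ((hfL w).1 hw)
    have ea : a' = a := Fin.ext (ha'.trans ha.symm)
    have eb : b' = b := Fin.ext (hb'.trans hb.symm)
    subst ea
    subst eb
    exact ⟨l, hl, hlen⟩
  · intro hw l hl
    by_contra hc
    rw [not_lt] at hc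
    exact hw ((hfL w).2 ⟨a, b, ha, hb, l, hl, hc⟩)

/-- **No approximation.** -/
theorem no_approx {ε : ℝ} (hε : 0 < ε) (hε1 : ε ≤ 1) {A : List Bool → List Bool} (hA : PolyTime A)
    (hAc : ∀ (G : Graph) (a b : Fin G.1), IsGraph G → ThreeConnected (toG G) → (toG G).Adj a b →
      ∃ l, IsIndNonsep (toG G) a b l ∧
        (∀ l', IsIndNonsep (toG G) a b l' → (l.length : ℝ) ≤ (G.1 : ℝ) ^ (1 - ε) * l'.length) ∧
        A (bits (G, (a.val, b.val))) = bits (l.map Fin.val)) :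
    ∀ L : Set (List Bool), InNP L → InP L := by
  obtain ⟨k, hk1, hk⟩ := exists_k hε
  refine collapse_out (β := List ℕ) (hardPr_gap k hk1) hA
    (d := fun p => decide (p.1.length ≤ p.2))
    (NPC.Poly.decide_le (NPC.Poly.length (NPC.Poly.fst NPC.Poly.id)) (NPC.Poly.snd NPC.Poly.id)) ?_
  rintro ⟨⟨G, x, y⟩, t⟩ ⟨⟨hG, h3, a, b, ha, hb, hab⟩, s, hs, hst, hn, hgap⟩
  simp only at hG h3 ha hb hab hst hn ⊢
  obtain ⟨l, hl, hmin, hbits⟩ := hAc G a b hG h3 hab
  refine ⟨l.map Fin.val, ?_, ?_⟩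
  · rw [← ha, ← hb]
    exact hbits
  · rw [List.length_map, decide_eq_true_eq]
    constructor
    · intro hsh
      obtain ⟨a', b', ha', hb', l', hl', hlen⟩ := hgap hsh
      have ea : a' = a := Fin.ext (ha'.trans ha.symm)
      have eb : b' = b := Fin.ext (hb'.trans hb.symm)
      subst ea
      subst eb
      have h4 := ratio hε hε1 hk hs hst hn
      have h5 := hmin l' hl'
      have h6 : (l'.length : ℝ) ≤ s := by exact_mod_cast hlen
      have h7 : (0 : ℝ) ≤ (G.1 : ℝ) ^ (1 - ε) := Real.rpow_nonneg (Nat.cast_nonneg _) _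
      have h8 : (l.length : ℝ) ≤ t := by
        calc (l.length : ℝ) ≤ (G.1 : ℝ) ^ (1 - ε) * l'.length := h5
          _ ≤ (G.1 : ℝ) ^ (1 - ε) * s := mul_le_mul_of_nonneg_left h6 h7
          _ = s * (G.1 : ℝ) ^ (1 - ε) := mul_comm _ _
          _ ≤ t := h4
      exact_mod_cast h8
    · intro hlen
      exact ⟨a, b, ha, hb, l, hl, hlen⟩

end Pool.Agent.Y605.NS
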